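import Pool.Agent.Y953.CA.Gen
import Pool.Agent.Y953.CA.DSTb

/-!
# Conjugacy of ergodic automorphisms does not Borel reduce to conjugacy in a full group

`Aut μ` and `FullGroup h` are the definitions of the starting file `NoBorelReduction`: the group of
the automorphisms of `(X, μ)` modulo null sets with the weak topology, and the full group of the
ergodic automorphism `T₀` with the uniform metric. `Erg μ` is the space of the ergodic elements of
`Aut μ`; `HtLe n` says that an element is measure distal of height at most `n` (it is reached from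
the trivial factor by `n` isometric extensions).

There is no Borel map from the ergodic elements of `Aut(X, μ)` to the full group `[T₀]` that
reduces conjugacy in `Aut(X, μ)` to conjugacy in `[T₀]`; not even a Borel map which does so on the
measure distal elements of height at most three. In particular both questions have a negative
answer.
-/

set_option autoImplicit false

open MeasureTheory Filter Topology Set

namespace Pool.Agent.Results.MP_1b52a3_lc.ErgodicNoReduction

open Pool.Agent.Helper212.ConjBorel
open Pool.Agent.Results.MP_1b52a3_lc.NoBorelReduction (PreAut Aut secondCountable_fullGroup)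
open Pool.Agent.Y953.CA

theorem exists_model {X : Type} [MeasurableSpace X] [StandardBorelSpace X] (μ : Measure X)
    [IsProbabilityMeasure μ] [NullSingletonClass μ] :
    ∃ e : Pool.Agent.W922.Dis.X ≃ᵐ X, MeasurePreserving e Pool.Agent.W922.MD.mu μ := by
  obtain ⟨e1, h1⟩ := Pool.Agent.Helper212.Sq.exists_mp_equiv Pool.Agent.W922.MD.mu
  obtain ⟨e2, h2⟩ := Pool.Agent.Helper212.Sq.exists_mp_equiv μ
  exact ⟨e1.trans e2.symm, (MeasurePreserving.symm e2 h2).comp h1⟩

/-- **Main theorem.** Let `T₀` be an ergodic automorphism of a standard atomless probability space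
`(X, μ)`. No Borel map from the ergodic elements of `Aut(X, μ)` to the full group `[T₀]` reduces
conjugacy in `Aut(X, μ)` to conjugacy in `[T₀]`, on the elements which are measure distal of height
at most three. Hence there is no Borel reduction on `Aut(X, μ)` (first question) or on the ergodic
elements of `Aut(X, μ)` to `[T₀]` or to its ergodic elements (second question). -/
theorem result {X : Type} [MeasurableSpace X] [StandardBorelSpace X] {μ : Measure X}
    [IsProbabilityMeasure μ] [NullSingletonClass μ] {T₀ : X ≃ᵐ X} (h : Ergodic T₀ μ) :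
    (¬ ∃ f : Erg μ → FullGroup h, Measurable[borel (Erg μ), borel (FullGroup h)] f ∧
      ∀ S S' : Erg μ, HtLe 3 S.1 → HtLe 3 S'.1 →
        ((∃ U : Aut μ, S'.1 = U * S.1 * U⁻¹) ↔ ∃ V : FullGroup h, f S' = V * f S * V⁻¹)) ∧
    (¬ ∃ f : Aut μ → FullGroup h, Measurable[borel (Aut μ), borel (FullGroup h)] f ∧
      ∀ S S' : Aut μ,
        (∃ U : Aut μ, S' = U * S * U⁻¹) ↔ ∃ V : FullGroup h, f S' = V * f S * V⁻¹) ∧
    (¬ ∃ f : Erg μ → FullGroup h, Measurable[borel (Erg μ), borel (FullGroup h)] f ∧
      ∀ S S' : Erg μ,
        (∃ U : Aut μ, S'.1 = U * S.1 * U⁻¹) ↔ ∃ V : FullGroup h, f S' = V * f S * V⁻¹) := by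
  have main : ¬ ∃ f : Erg μ → FullGroup h, Measurable[borel (Erg μ), borel (FullGroup h)] f ∧
      ∀ S S' : Erg μ, HtLe 3 S.1 → HtLe 3 S'.1 →
        ((∃ U : Aut μ, S'.1 = U * S.1 * U⁻¹) ↔ ∃ V : FullGroup h, f S' = V * f S * V⁻¹) := by
    rintro ⟨f, hf, hred⟩
    apply IG_not_coanalytic
    obtain ⟨e, he⟩ := exists_model μ
    have _ : PolishSpace (List ℕ → Bool) := {}
    let _ : MeasurableSpace (Erg μ) := borel _
    have : BorelSpace (Erg μ) := ⟨rfl⟩
    let _ : MeasurableSpace (FullGroup h) := borel _
    have : BorelSpace (FullGroup h) := ⟨rfl⟩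
    have : SecondCountableTopology (FullGroup h) := secondCountable_fullGroup
    have hm : ∀ b : ℤ, Measurable fun τ : List ℕ → Bool => f (gpt e he τ b) := fun b =>
      hf.comp (continuous_gpt e he b).measurable
    have hE := measurableSet_conjRel h
    have hb : borel (FullGroup h × FullGroup h) = Prod.instMeasurableSpace :=
      (BorelSpace.measurable_eq (α := FullGroup h × FullGroup h)).symm
    rw [hb] at hE
    have h3 := ((hm 1).prodMk (hm 0)) hE
    have h4 : MeasurableSet IG := by
      convert h3 using 1
      ext τ
      rw [← gconj_iff e he τ]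
      exact hred _ _ (gpt_ht e he τ 0) (gpt_ht e he τ 1)
    exact MeasurableSet.analyticSet h4.compl
  refine ⟨main, ?_, ?_⟩
  · rintro ⟨f, hf, hred⟩
    refine main ⟨fun S => f S.1, ?_, fun S S' _ _ => hred _ _⟩
    have h1 : @Measurable (Erg μ) (Aut μ) (borel _) (borel _) Subtype.val :=
      continuous_subtype_val.borel_measurable
    exact hf.comp h1
  · rintro ⟨f, hf, hred⟩
    exact main ⟨f, hf, fun S S' _ _ => hred _ _⟩

end Pool.Agent.Results.MP_1b52a3_lc.ErgodicNoReduction
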